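import Pool.Agent.Helper38.FRX.Goals
import Mathlib

/-!
# Project FRX (MP_79b960_co), packet RTR: a rooted spanning tree
-/

set_option autoImplicit false
set_option linter.unusedSectionVars false

namespace Pool.Agent.Helper39.FRX

open Finset Pool.Agent.Helper55.FR Pool.Agent.Helper38.FRX

/-- `S'` has a rooted spanning tree with root `s` -/
def Tr {V : Type} (r : V → V → Prop) (s : V) (S' : Finset V) : Prop :=
  s ∈ S' ∧ ∃ (par : V → V) (dep : V → ℕ), ∀ x ∈ S', x ≠ s →
    par x ∈ S' ∧ r (par x) x ∧ dep (par x) < dep x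

theorem step {V : Type} [DecidableEq V] (r : V → V → Prop) (s : V) (S' : Finset V) (x y : V)
    (h : Tr r s S') (hx : x ∈ S') (hy : y ∉ S') (hr : r x y) : Tr r s (insert y S') := by
  obtain ⟨hs, par, dep, hp⟩ := h
  have hys : y ≠ s := fun h => hy (h ▸ hs)
  have hxy : x ≠ y := fun h => hy (h ▸ hx)
  refine ⟨Finset.mem_insert_of_mem hs, Function.update par y x,
    Function.update dep y (dep x + 1), fun z hz hzs => ?_⟩
  by_cases hzy : z = y
  · subst hzy
    rw [Function.update_self, Function.update_self, Function.update_of_ne hxy]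
    exact ⟨Finset.mem_insert_of_mem hx, hr, Nat.lt_succ_self _⟩
  · have hz' : z ∈ S' := (Finset.mem_insert.1 hz).resolve_left hzy
    obtain ⟨h1, h2, h3⟩ := hp z hz' hzs
    have h4 : par z ≠ y := fun h => hy (h ▸ h1)
    rw [Function.update_of_ne hzy, Function.update_of_ne hzy, Function.update_of_ne h4]
    exact ⟨Finset.mem_insert_of_mem h1, h2, h3⟩

theorem rtr : RtrStmt := by
  classical
  intro V _ _ r S s hs hcon
  obtain ⟨F, hF⟩ : ∃ F, F = S.powerset.filter fun S' => Tr r s S' := ⟨_, rfl⟩
  have hne : F.Nonempty := by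
    refine ⟨{s}, ?_⟩
    rw [hF, Finset.mem_filter, Finset.mem_powerset]
    refine ⟨Finset.singleton_subset_iff.2 hs, Finset.mem_singleton_self s, id, fun _ => 0, ?_⟩
    intro x hx hxs
    exact absurd (Finset.mem_singleton.1 hx) hxs
  obtain ⟨S', hS', hmax⟩ := Finset.exists_max_image F Finset.card hne
  rw [hF, Finset.mem_filter, Finset.mem_powerset] at hS'
  have heq : S' = S := by
    refine hcon S' hS'.1 ⟨s, hS'.2.1⟩ fun x hx y hy hr => ?_
    by_contra hyn
    have h1 : insert y S' ∈ F := by
      rw [hF, Finset.mem_filter, Finset.mem_powerset]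
      exact ⟨Finset.insert_subset hy hS'.1, step r s S' x y hS'.2 hx hyn hr⟩
    have h2 := hmax _ h1
    rw [Finset.card_insert_of_notMem hyn] at h2
    omega
  rw [heq] at hS'
  exact hS'.2.2

end Pool.Agent.Helper39.FRX
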