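import Pool.Agent.Helper38.FRX.Goals
import Mathlib

/-!
# Project FRX (MP_79b960_co), packet TRE: a cheap connecting set of matching edges
-/

set_option autoImplicit false
set_option linter.unusedSectionVars false

namespace Pool.Agent.Helper39.FRX

open Finset Pool.Agent.Helper55.FR Pool.Agent.Helper38.FRX

section

variable {V : Type} [Fintype V] [DecidableEq V]

/-- the crossing vertices -/
def Cr (m : V → V) (c : V → V) : Finset V := univ.filter fun x => c (m x) ≠ c x

theorem mem_Cr (m c : V → V) (x : V) : x ∈ Cr m c ↔ c (m x) ≠ c x := by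
  simp [Cr]

/-- many crossing vertices -/
theorem card_Cr (n : Equiv.Perm V) (m : V → V) (lam : ℝ)
    (hS : ∀ S : Finset V, S.Nonempty → S ≠ univ → (∀ x, x ∈ S ↔ n x ∈ S) → lam ≤ dM m S)
    (c : V → V) (hc : ∀ x, c (n x) = c x) (h2 : 2 ≤ (univ.image c).card) :
    ((univ.image c).card : ℝ) * lam ≤ (Cr m c).card := by
  have h1 : (Cr m c).card = ∑ s ∈ univ.image c, ((Cr m c).filter fun x => c x = s).card :=
    Finset.card_eq_sum_card_fiberwise fun x _ => Finset.mem_image_of_mem c (Finset.mem_univ x)
  rw [h1, Nat.cast_sum, ← nsmul_eq_mul, ← Finset.sum_const]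
  refine Finset.sum_le_sum fun s hs => ?_
  obtain ⟨x, -, hx⟩ := Finset.mem_image.1 hs
  have h3 := hS (univ.filter fun y => c y = s) ⟨x, Finset.mem_filter.2 ⟨Finset.mem_univ _, hx⟩⟩
    (fun h => by
      have h4 : univ.image c ⊆ {s} := by
        intro t ht
        obtain ⟨y, -, rfl⟩ := Finset.mem_image.1 ht
        have h5 : y ∈ univ.filter fun y => c y = s := by
          rw [h]
          exact Finset.mem_univ _
        rw [Finset.mem_singleton]
        exact (Finset.mem_filter.1 h5).2
      have h6 := Finset.card_le_card h4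
      rw [Finset.card_singleton] at h6
      omega)
    (fun y => by
      rw [Finset.mem_filter, Finset.mem_filter, hc]
      simp)
  refine h3.trans ?_
  have h4 : dM m (univ.filter fun y => c y = s) ≤ ((Cr m c).filter fun x => c x = s).card := by
    unfold dM
    refine Finset.card_le_card fun y hy => ?_
    rw [Finset.mem_filter, Finset.mem_filter, Finset.mem_filter] at hy
    rw [Finset.mem_filter, mem_Cr]
    refine ⟨fun h => hy.2 ⟨Finset.mem_univ _, h.trans hy.1.2⟩, hy.1.2⟩
  exact_mod_cast h4

theorem sum_insert_le (a : V) (s : Finset V) (w : V → ℝ) (hw : ∀ x, 0 ≤ w x) :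
    ∑ x ∈ insert a s, w x ≤ w a + ∑ x ∈ s, w x := by
  by_cases h : a ∈ s
  · rw [Finset.insert_eq_of_mem h]
    linarith [hw a]
  · rw [Finset.sum_insert h]

theorem claim (n : Equiv.Perm V) (m : V → V) (lam : ℝ) (hm : ∀ v, m (m v) = v) (hl : 0 < lam)
    (hS : ∀ S : Finset V, S.Nonempty → S ≠ univ → (∀ x, x ∈ S ↔ n x ∈ S) → lam ≤ dM m S) :
    ∀ (N : ℕ) (c : V → V), (∀ x, c (n x) = c x) → (univ.image c).card = N + 1 →
      ∀ w : V → ℝ, (∀ x, 0 ≤ w x) → (∀ x, w (m x) = w x) →
        ∃ E : Finset V, (∀ x, x ∈ E → m x ∈ E) ∧ (∀ x ∈ E, c (m x) ≠ c x) ∧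
          E.card ≤ 2 * N ∧ lam * ∑ x ∈ E, w x ≤ 2 * ∑ x ∈ Cr m c, w x ∧
          ∀ S : Finset V, S.Nonempty → (∀ x ∈ S, x ∈ E → m x ∈ S) →
            (∀ x ∈ S, ∀ y, c y = c x → y ∈ S) → S = univ := by
  intro N
  induction N with
  | zero =>
    intro c hc hN w hw hwm
    refine ⟨∅, fun x hx => absurd hx (Finset.notMem_empty _),
      fun x hx => absurd hx (Finset.notMem_empty _), by rw [Finset.card_empty], ?_, ?_⟩
    · rw [Finset.sum_empty, mul_zero]
      exact mul_nonneg (by norm_num) (Finset.sum_nonneg fun x _ => hw x)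
    · rintro S ⟨x, hx⟩ - hcl
      rw [Finset.eq_univ_iff_forall]
      intro y
      refine hcl x hx y ?_
      obtain ⟨s, hs⟩ := Finset.card_eq_one.1 hN
      have h1 : ∀ z, c z = s := fun z => by
        have h2 : c z ∈ univ.image c := Finset.mem_image_of_mem c (Finset.mem_univ z)
        rw [hs, Finset.mem_singleton] at h2
        exact h2
      rw [h1, h1]
  | succ N ih =>
    intro c hc hN w hw hwm
    have hcr := card_Cr n m lam hS c hc (by omega)
    have hne : (Cr m c).Nonempty := by
      rw [← Finset.card_pos]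
      have h1 : (0 : ℝ) < ((univ.image c).card : ℝ) * lam := by
        rw [hN]
        positivity
      exact_mod_cast h1.trans_le hcr
    obtain ⟨x0, hx0, hmin⟩ := Finset.exists_min_image (Cr m c) w hne
    have hx0' : c (m x0) ≠ c x0 := (mem_Cr m c x0).1 hx0
    obtain ⟨c', hc'⟩ : ∃ c' : V → V, c' = fun x => if c x = c x0 then c (m x0) else c x := ⟨_, rfl⟩
    have hc'1 : ∀ x, c x = c x0 → c' x = c (m x0) := fun x h => by
      rw [hc']
      exact if_pos h
    have hc'2 : ∀ x, c x ≠ c x0 → c' x = c x := fun x h => by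
      rw [hc']
      exact if_neg h
    have hc'n : ∀ x, c' (n x) = c' x := fun x => by
      rw [hc']
      simp only [hc]
    have hc'c : ∀ x y, c x = c y → c' x = c' y := fun x y h => by
      rw [hc']
      simp only [h]
    have himg : univ.image c' = (univ.image c).erase (c x0) := by
      ext s
      rw [Finset.mem_erase, Finset.mem_image, Finset.mem_image]
      constructor
      · rintro ⟨x, -, rfl⟩
        by_cases h : c x = c x0
        · rw [hc'1 x h]
          exact ⟨hx0', m x0, Finset.mem_univ _, rfl⟩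
        · rw [hc'2 x h]
          exact ⟨h, x, Finset.mem_univ _, rfl⟩
      · rintro ⟨h, x, -, rfl⟩
        exact ⟨x, Finset.mem_univ _, hc'2 x h⟩
    have hN' : (univ.image c').card = N + 1 := by
      rw [himg, Finset.card_erase_of_mem (Finset.mem_image_of_mem c (Finset.mem_univ x0)), hN]
      rfl
    have hsub : Cr m c' ⊆ Cr m c := by
      intro x hx
      rw [mem_Cr] at hx ⊢
      exact fun h => hx (hc'c _ _ h)
    have hCm : ∀ x, m x ∈ Cr m c ↔ x ∈ Cr m c := by
      intro x
      rw [mem_Cr, mem_Cr, hm]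
      exact ne_comm
    obtain ⟨w', hw'⟩ : ∃ w' : V → ℝ, w' = fun x => if x ∈ Cr m c then w x - w x0 else 0 :=
      ⟨_, rfl⟩
    have hw'1 : ∀ x ∈ Cr m c, w' x = w x - w x0 := fun x h => by
      rw [hw']
      exact if_pos h
    have hw'0 : ∀ x, 0 ≤ w' x := fun x => by
      by_cases h : x ∈ Cr m c
      · rw [hw'1 x h]
        linarith [hmin x h]
      · rw [hw']
        exact le_of_eq (if_neg h).symm
    have hw'm : ∀ x, w' (m x) = w' x := fun x => by
      rw [hw']
      simp only [hCm, hwm]
    obtain ⟨E', e1, e2, e3, e4, e5⟩ := ih c' hc'n hN' w' hw'0 hw'm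
    have hE'C : E' ⊆ Cr m c := fun x hx => hsub ((mem_Cr m c' x).2 (e2 x hx))
    refine ⟨insert x0 (insert (m x0) E'), ?_, ?_, ?_, ?_, ?_⟩
    · intro x hx
      rw [Finset.mem_insert, Finset.mem_insert] at hx ⊢
      rcases hx with rfl | rfl | hx
      · exact Or.inr (Or.inl rfl)
      · exact Or.inl (hm x0)
      · exact Or.inr (Or.inr (e1 x hx))
    · intro x hx
      rw [Finset.mem_insert, Finset.mem_insert] at hx
      rcases hx with rfl | rfl | hx
      · exact hx0'
      · rw [hm]
        exact hx0'.symm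
      · exact (mem_Cr m c x).1 (hE'C hx)
    · have h1 := Finset.card_insert_le x0 (insert (m x0) E')
      have h2 := Finset.card_insert_le (m x0) E'
      omega
    · have h1 : ∑ x ∈ insert x0 (insert (m x0) E'), w x ≤ 2 * w x0 + ∑ x ∈ E', w x := by
        have h2 := sum_insert_le x0 (insert (m x0) E') w hw
        have h3 := sum_insert_le (m x0) E' w hw
        rw [hwm] at h3
        linarith
      have h2 : ∑ x ∈ E', w x = ∑ x ∈ E', w' x + E'.card * w x0 := by
        rw [← nsmul_eq_mul, ← Finset.sum_const, ← Finset.sum_add_distrib]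
        exact Finset.sum_congr rfl fun x hx => by
          rw [hw'1 x (hE'C hx)]
          ring
      have h3 : ∑ x ∈ Cr m c, w x = ∑ x ∈ Cr m c, w' x + (Cr m c).card * w x0 := by
        rw [← nsmul_eq_mul, ← Finset.sum_const, ← Finset.sum_add_distrib]
        exact Finset.sum_congr rfl fun x hx => by
          rw [hw'1 x hx]
          ring
      have h4 : ∑ x ∈ Cr m c', w' x ≤ ∑ x ∈ Cr m c, w' x :=
        Finset.sum_le_sum_of_subset_of_nonneg hsub fun x _ _ => hw'0 x
      have h5 : (E'.card : ℝ) ≤ 2 * N := by exact_mod_cast e3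
      rw [hN] at hcr
      push_cast at hcr
      have hw0 := hw x0
      rw [h3]
      have h6 : lam * ∑ x ∈ insert x0 (insert (m x0) E'), w x ≤
          lam * (2 * w x0 + (∑ x ∈ E', w' x + E'.card * w x0)) := by
        rw [← h2]
        exact mul_le_mul_of_nonneg_left h1 hl.le
      have h7 : ((N : ℝ) + 1 + 1) * lam * w x0 ≤ (Cr m c).card * w x0 :=
        mul_le_mul_of_nonneg_right hcr hw0
      have h8 : lam * ((E'.card : ℝ) * w x0) ≤ lam * (2 * N * w x0) :=
        mul_le_mul_of_nonneg_left (mul_le_mul_of_nonneg_right h5 hw0) hl.le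
      have h9 : 0 ≤ lam * w x0 := mul_nonneg hl.le hw0
      nlinarith
    · intro S hSne hSE hSc
      have hx0E : x0 ∈ insert x0 (insert (m x0) E') := Finset.mem_insert_self _ _
      have hmx0E : m x0 ∈ insert x0 (insert (m x0) E') :=
        Finset.mem_insert_of_mem (Finset.mem_insert_self _ _)
      refine e5 S hSne (fun x hx hxE => hSE x hx
        (Finset.mem_insert_of_mem (Finset.mem_insert_of_mem hxE))) fun x hx y hy => ?_
      by_cases h : c x = c x0
      · have h1 : x0 ∈ S := hSc x hx x0 h.symm
        have h2 : m x0 ∈ S := hSE x0 h1 hx0E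
        rw [hc'1 x h] at hy
        by_cases h3 : c y = c x0
        · exact hSc x0 h1 y h3
        · rw [hc'2 y h3] at hy
          exact hSc (m x0) h2 y hy
      · rw [hc'2 x h] at hy
        by_cases h3 : c y = c x0
        · rw [hc'1 y h3] at hy
          have h2 : m x0 ∈ S := hSc x hx (m x0) hy
          have h1 : x0 ∈ S := by
            have h4 := hSE (m x0) h2 hmx0E
            rwa [hm] at h4
          exact hSc x0 h1 y h3
        · rw [hc'2 y h3] at hy
          exact hSc x hx y hy

end

theorem tre : TreStmt := by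
  intro V _ _ n m lam hm hl hS w hw hwm
  classical
  rcases isEmpty_or_nonempty V with hV | hV
  · refine ⟨∅, fun x => isEmptyElim x, ?_, ?_⟩
    · rintro S - ⟨x, -⟩ -
      exact isEmptyElim x
    · rw [Finset.sum_empty, mul_zero]
      exact mul_nonneg (by norm_num) (Finset.sum_nonneg fun x _ => hw x)
  · obtain ⟨c, hcd⟩ : ∃ c : V → V, c = fun x =>
      Quotient.out (Quotient.mk (Equiv.Perm.SameCycle.setoid n) x) := ⟨_, rfl⟩
    have hc : ∀ x, c (n x) = c x := by
      intro x
      rw [hcd]
      show Quotient.out (Quotient.mk (Equiv.Perm.SameCycle.setoid n) (n x)) =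
        Quotient.out (Quotient.mk (Equiv.Perm.SameCycle.setoid n) x)
      congr 1
      refine Quotient.sound ?_
      show n.SameCycle (n x) x
      exact ⟨-1, by simp⟩
    have hcs : ∀ x y, c y = c x → n.SameCycle x y := by
      intro x y h
      rw [hcd] at h
      have h1 : Quotient.mk (Equiv.Perm.SameCycle.setoid n) y =
          Quotient.mk (Equiv.Perm.SameCycle.setoid n) x := by
        rw [← Quotient.out_eq (Quotient.mk (Equiv.Perm.SameCycle.setoid n) y),
          ← Quotient.out_eq (Quotient.mk (Equiv.Perm.SameCycle.setoid n) x)]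
        exact congrArg _ h
      exact Equiv.Perm.SameCycle.symm (Quotient.exact h1)
    have hN : (univ.image c).card = (univ.image c).card - 1 + 1 := by
      have : 0 < (univ.image c).card :=
        Finset.card_pos.2 ((Finset.univ_nonempty).image c)
      omega
    obtain ⟨E, e1, e2, e3, e4, e5⟩ := claim n m lam hm hl hS _ c hc hN w hw hwm
    refine ⟨E, fun x => ⟨e1 x, fun h => ?_⟩, ?_, ?_⟩
    · have h1 := e1 _ h
      rwa [hm] at h1
    · intro S _ hSne hcl
      refine e5 S hSne (fun x hx hxE => hcl x hx (m x) (Finset.mem_univ _)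
        (Or.inr (Or.inr ⟨rfl, hxE⟩))) fun x hx y hy => ?_
      obtain ⟨i, hi⟩ := (hcs x y hy).exists_nat_pow_eq
      have h1 : ∀ i : ℕ, (n ^ i) x ∈ S := by
        intro i
        induction i with
        | zero => exact hx
        | succ i ih =>
          refine hcl _ ih _ (Finset.mem_univ _) (Or.inl ?_)
          rw [pow_succ']
          rfl
      rw [← hi]
      exact h1 i
    · refine e4.trans (mul_le_mul_of_nonneg_left ?_ (by norm_num))
      exact Finset.sum_le_sum_of_subset_of_nonneg (Finset.subset_univ _) fun x _ _ => hw x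

end Pool.Agent.Helper39.FRX
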